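import Pool.Agent.DQ2.Stmts

/-! DQ2 (MP_366d03_ag, Q2), row TRS: an algebraically closed subfield without one variable.  The proof is
the one of helper42 (Helper42_DQ2/TRM.lean) for an arbitrary index type. -/

set_option autoImplicit false

namespace Pool.Agent.DQ2.H43

open Pool.Agent.DQ2

theorem trs : TRS := by
  intro ι i₀
  let x : ι → AlgebraicClosure (FractionRing (MvPolynomial ι ℂ)) := fun w =>
    algebraMap (MvPolynomial ι ℂ) (AlgebraicClosure (FractionRing (MvPolynomial ι ℂ)))
      (MvPolynomial.X w)
  have htow : ∀ a : MvPolynomial ι ℂ,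
      algebraMap (FractionRing (MvPolynomial ι ℂ))
        (AlgebraicClosure (FractionRing (MvPolynomial ι ℂ)))
        (algebraMap (MvPolynomial ι ℂ) (FractionRing (MvPolynomial ι ℂ)) a) =
      algebraMap (MvPolynomial ι ℂ) (AlgebraicClosure (FractionRing (MvPolynomial ι ℂ))) a := by
    intro a
    rw [← IsScalarTower.algebraMap_apply]
  have hinj : Function.Injective
      (algebraMap (MvPolynomial ι ℂ) (AlgebraicClosure (FractionRing (MvPolynomial ι ℂ)))) := by
    rw [IsScalarTower.algebraMap_eq (MvPolynomial ι ℂ) (FractionRing (MvPolynomial ι ℂ))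
      (AlgebraicClosure (FractionRing (MvPolynomial ι ℂ)))]
    exact (algebraMap (FractionRing (MvPolynomial ι ℂ))
      (AlgebraicClosure (FractionRing (MvPolynomial ι ℂ)))).injective.comp
      (IsFractionRing.injective (MvPolynomial ι ℂ) (FractionRing (MvPolynomial ι ℂ)))
  have hx : AlgebraicIndependent ℂ x := by
    have h1 : AlgebraicIndependent ℂ (MvPolynomial.X : ι → MvPolynomial ι ℂ) :=
      MvPolynomial.algebraicIndependent_X ι ℂ
    exact h1.map' (f := IsScalarTower.toAlgHom ℂ (MvPolynomial ι ℂ)
      (AlgebraicClosure (FractionRing (MvPolynomial ι ℂ)))) hinj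
  have ht : Transcendental (Algebra.adjoin ℂ (x '' {w | w ≠ i₀})) (x i₀) :=
    hx.transcendental_adjoin (by simp)
  let F : IntermediateField ℂ (AlgebraicClosure (FractionRing (MvPolynomial ι ℂ))) :=
    IntermediateField.adjoin ℂ (x '' {w | w ≠ i₀})
  have ht2 : Transcendental F (x i₀) := IntermediateField.transcendental_adjoin_iff.mpr ht
  let E : IntermediateField F (AlgebraicClosure (FractionRing (MvPolynomial ι ℂ))) :=
    algebraicClosure F (AlgebraicClosure (FractionRing (MvPolynomial ι ℂ)))
  have hF : ∀ y : AlgebraicClosure (FractionRing (MvPolynomial ι ℂ)), y ∈ F → y ∈ E := by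
    intro y hy
    exact E.algebraMap_mem (⟨y, hy⟩ : F)
  refine ⟨E.toSubfield, ?_, ?_, ?_, ?_⟩
  · intro z
    rw [htow]
    refine hF _ ?_
    have : algebraMap (MvPolynomial ι ℂ) (AlgebraicClosure (FractionRing (MvPolynomial ι ℂ)))
        (MvPolynomial.C z) =
        algebraMap ℂ (AlgebraicClosure (FractionRing (MvPolynomial ι ℂ))) z := by
      rw [IsScalarTower.algebraMap_apply ℂ (MvPolynomial ι ℂ)
        (AlgebraicClosure (FractionRing (MvPolynomial ι ℂ)))]
      rfl
    rw [this]
    exact F.algebraMap_mem z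
  · intro w hw
    rw [htow]
    exact hF _ (IntermediateField.subset_adjoin _ _ ⟨w, hw, rfl⟩)
  · rw [htow]
    intro h
    have h1 : x i₀ ∈ algebraicClosure F (AlgebraicClosure (FractionRing (MvPolynomial ι ℂ))) := h
    rw [mem_algebraicClosure_iff] at h1
    exact ht2 h1
  · intro t p hp hc hpt
    change t ∈ algebraicClosure F (AlgebraicClosure (FractionRing (MvPolynomial ι ℂ)))
    rw [mem_algebraicClosure_iff]
    have h1 : IsAlgebraic E t := by
      have hl : p ∈ Polynomial.lifts
          (algebraMap E (AlgebraicClosure (FractionRing (MvPolynomial ι ℂ)))) := by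
        rw [Polynomial.lifts_iff_coeff_lifts]
        intro j
        exact ⟨⟨p.coeff j, hc j⟩, rfl⟩
      obtain ⟨q, hq⟩ := hl
      refine ⟨q, ?_, ?_⟩
      · rintro rfl
        apply hp
        rw [← hq]
        simp
      · have hq' : q.map (algebraMap E (AlgebraicClosure (FractionRing (MvPolynomial ι ℂ)))) = p :=
          hq
        rw [← hpt, ← hq', Polynomial.eval_map_algebraMap]
    have h2 : Algebra.IsAlgebraic F E :=
      algebraicClosure.isAlgebraic F (AlgebraicClosure (FractionRing (MvPolynomial ι ℂ)))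
    exact h1.restrictScalars F

end Pool.Agent.DQ2.H43
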